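import Mathlib
import Pool.Agent.Work.MP_c51d14_co.Interface

/-!
# Block LP: linear programming duality with a unique dual optimum
-/

namespace Pool.Agent.TP.h12

open Finset

section LP

variable {κ E : Type} [Fintype κ] [AddCommGroup E] [Module ℝ E]

/-- small positive steps in a direction which is nonnegative at the vanishing coordinates -/
lemma exists_step (lam c : κ → ℝ) (h0 : ∀ k, 0 ≤ lam k) (hc : ∀ k, lam k = 0 → 0 ≤ c k) :
    ∃ t : ℝ, 0 < t ∧ ∀ k, 0 ≤ lam k + t * c k := by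
  classical
  have h1 : ∀ k, ∃ t : ℝ, 0 < t ∧ ∀ s, 0 ≤ s → s ≤ t → 0 ≤ lam k + s * c k := by
    intro k
    by_cases hk : 0 ≤ c k
    · exact ⟨1, one_pos, fun s hs _ => add_nonneg (h0 k) (mul_nonneg hs hk)⟩
    · push Not at hk
      have hlk : 0 < lam k := lt_of_le_of_ne (h0 k) fun h => absurd (hc k h.symm) (not_le.2 hk)
      refine ⟨lam k / (-c k), div_pos hlk (by linarith), fun s _ hs => ?_⟩
      have h2 : s * (-c k) ≤ lam k := by
        rwa [le_div_iff₀ (by linarith)] at hs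
      linarith
  choose t ht1 ht2 using h1
  rcases isEmpty_or_nonempty κ with hE | hE
  · exact ⟨1, one_pos, fun k => (hE.false k).elim⟩
  · obtain ⟨k0, -, hk0⟩ := Finset.exists_min_image (univ : Finset κ) t univ_nonempty
    exact ⟨t k0, ht1 k0, fun k => ht2 k _ (ht1 k0).le (hk0 k (mem_univ k))⟩

/-- the optimality criterion -/
lemma opt_dir (a : κ → E) (h : κ → ℝ) (x₀ : E) (lam : κ → ℝ) (h0 : ∀ k, 0 ≤ lam k)
    (hx : ∑ k, lam k • a k = x₀)
    (hmax : ∀ μ : κ → ℝ, (∀ k, 0 ≤ μ k) → ∑ k, μ k • a k = x₀ →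
      ∑ k, μ k * h k ≤ ∑ k, lam k * h k)
    (c : κ → ℝ) (hc : ∀ k, lam k = 0 → 0 ≤ c k) (hc0 : ∑ k, c k • a k = 0) :
    ∑ k, c k * h k ≤ 0 := by
  obtain ⟨t, ht, ht2⟩ := exists_step lam c h0 hc
  have h1 := hmax (fun k => lam k + t * c k) ht2 (by
    simp only [add_smul, Finset.sum_add_distrib, mul_smul]
    rw [hx, ← Finset.smul_sum, hc0, smul_zero, add_zero])
  simp only [add_mul, Finset.sum_add_distrib, mul_assoc] at h1
  rw [← Finset.mul_sum] at h1
  nlinarith

/-- existence of a maximiser -/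
lemma exists_max [FiniteDimensional ℝ E] (a : κ → E) (h : κ → ℝ) (x₀ : E)
    (hx : Pos a Set.univ x₀) (hψ : ∃ ψ : Module.Dual ℝ E, ∀ k, 0 < ψ (a k)) :
    ∃ lam : κ → ℝ, (∀ k, 0 ≤ lam k) ∧ ∑ k, lam k • a k = x₀ ∧
      ∀ μ : κ → ℝ, (∀ k, 0 ≤ μ k) → ∑ k, μ k • a k = x₀ →
      ∑ k, μ k * h k ≤ ∑ k, lam k * h k := by
  classical
  obtain ⟨lam0, hl0, -, hl2⟩ := hx
  obtain ⟨ψ, hψ⟩ := hψ
  let T : (κ → ℝ) →ₗ[ℝ] E := ∑ k, (LinearMap.toSpanSingleton ℝ E (a k)).comp (LinearMap.proj k)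
  have hT : ∀ lam : κ → ℝ, T lam = ∑ k, lam k • a k := by
    intro lam
    simp [T]
  let S : Set (κ → ℝ) := {lam | (∀ k, 0 ≤ lam k) ∧ T lam = x₀}
  have hScl : IsClosed S := by
    have h1 : IsClosed ((LinearMap.ker T : Submodule ℝ (κ → ℝ)) : Set (κ → ℝ)) :=
      Submodule.closed_of_finiteDimensional _
    have h2 : IsClosed {lam : κ → ℝ | lam - lam0 ∈ (LinearMap.ker T : Set (κ → ℝ))} :=
      h1.preimage (continuous_id.sub continuous_const)
    have h3 : IsClosed {lam : κ → ℝ | ∀ k, 0 ≤ lam k} := by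
      have : {lam : κ → ℝ | ∀ k, 0 ≤ lam k} = Set.Ici 0 := by
        ext lam; simp [Pi.le_def]
      rw [this]; exact isClosed_Ici
    have h4 : S = {lam : κ → ℝ | ∀ k, 0 ≤ lam k} ∩
        {lam : κ → ℝ | lam - lam0 ∈ (LinearMap.ker T : Set (κ → ℝ))} := by
      ext lam
      simp only [S, Set.mem_ofPred_eq, Set.mem_inter_iff, SetLike.mem_coe, LinearMap.mem_ker,
        map_sub]
      rw [hT lam0, ← hl2, sub_eq_zero]
    rw [h4]
    exact h3.inter h2
  have hScomp : IsCompact S := by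
    have h1 : IsCompact (Set.Icc (0 : κ → ℝ) (fun k => ψ x₀ / ψ (a k))) := isCompact_Icc
    refine h1.of_isClosed_subset hScl ?_
    intro lam hlam
    refine ⟨fun k => hlam.1 k, fun k => ?_⟩
    rw [le_div_iff₀ (hψ k)]
    have h2 : ψ x₀ = ∑ j, lam j * ψ (a j) := by
      rw [← hlam.2, hT, map_sum]
      exact Finset.sum_congr rfl fun j _ => by rw [map_smul, smul_eq_mul]
    rw [h2]
    exact Finset.single_le_sum (f := fun j => lam j * ψ (a j))
      (fun j _ => mul_nonneg (hlam.1 j) (hψ j).le) (mem_univ k)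
  have hcont : Continuous fun lam : κ → ℝ => ∑ k, lam k * h k := by fun_prop
  obtain ⟨lam, hlam, hmax⟩ := hScomp.exists_isMaxOn ⟨lam0, hl0, by rw [hT, ← hl2]⟩
    hcont.continuousOn
  refine ⟨lam, hlam.1, by rw [← hT]; exact hlam.2, fun μ hμ0 hμ => ?_⟩
  exact hmax (show μ ∈ S from ⟨hμ0, by rw [hT, hμ]⟩)

open scoped Classical in
/-- a maximiser whose support is independent -/
lemma exists_max_indep [FiniteDimensional ℝ E] (a : κ → E) (h : κ → ℝ) (x₀ : E)
    (hx : Pos a Set.univ x₀) (hψ : ∃ ψ : Module.Dual ℝ E, ∀ k, 0 < ψ (a k)) :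
    ∃ lam : κ → ℝ, (∀ k, 0 ≤ lam k) ∧ ∑ k, lam k • a k = x₀ ∧
      (∀ μ : κ → ℝ, (∀ k, 0 ≤ μ k) → ∑ k, μ k • a k = x₀ →
      ∑ k, μ k * h k ≤ ∑ k, lam k * h k) ∧
      ∀ c : κ → ℝ, (∀ k, lam k = 0 → c k = 0) → ∑ k, c k • a k = 0 → ∀ k, c k = 0 := by
  let P : ℕ → Prop := fun n => ∃ lam : κ → ℝ, (∀ k, 0 ≤ lam k) ∧ ∑ k, lam k • a k = x₀ ∧
      (∀ μ : κ → ℝ, (∀ k, 0 ≤ μ k) → ∑ k, μ k • a k = x₀ →
      ∑ k, μ k * h k ≤ ∑ k, lam k * h k) ∧ (univ.filter fun k => lam k ≠ 0).card = n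
  have hP : ∃ n, P n := by
    obtain ⟨lam, h1, h2, h3⟩ := exists_max a h x₀ hx hψ
    exact ⟨_, lam, h1, h2, h3, rfl⟩
  obtain ⟨lam, h1, h2, h3, h4⟩ := Nat.find_spec hP
  refine ⟨lam, h1, h2, h3, ?_⟩
  -- it suffices to have no relation with a positive coordinate
  have key : ∀ c : κ → ℝ, (∀ k, lam k = 0 → c k = 0) → ∑ k, c k • a k = 0 → ∀ k, ¬ 0 < c k := by
    intro c hc hc0 k1 hk1
    have e1 := opt_dir a h x₀ lam h1 h2 h3 c (fun k hk => (hc k hk).ge) hc0
    have e2 := opt_dir a h x₀ lam h1 h2 h3 (fun k => -c k)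
      (fun k hk => by rw [hc k hk, neg_zero]) (by simp [hc0])
    have e3 : ∑ k, c k * h k = 0 := by
      simp only [neg_mul, Finset.sum_neg_distrib] at e2
      linarith
    -- minimal ratio
    obtain ⟨k0, hk0, hmin⟩ := Finset.exists_min_image (univ.filter fun k => 0 < c k)
      (fun k => lam k / c k) ⟨k1, by simp [hk1]⟩
    simp only [mem_filter, mem_univ, true_and] at hk0 hmin
    set t := lam k0 / c k0 with ht
    have ht0 : 0 ≤ t := div_nonneg (h1 k0) hk0.le
    have hk0' : t * c k0 = lam k0 := by rw [ht]; field_simp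
    have hnn : ∀ k, 0 ≤ lam k + -t * c k := by
      intro k
      by_cases hk : 0 < c k
      · have := hmin k hk
        rw [le_div_iff₀ hk] at this
        linarith
      · push Not at hk
        nlinarith [h1 k]
    refine Nat.find_min hP (m := (univ.filter fun k => lam k + -t * c k ≠ 0).card) ?_
      ⟨fun k => lam k + -t * c k, hnn, ?_, ?_, rfl⟩
    · rw [← h4]
      refine Finset.card_lt_card ?_
      refine ⟨fun k hk => ?_, fun hss => ?_⟩
      · simp only [mem_filter, mem_univ, true_and] at hk ⊢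
        intro h5
        apply hk
        rw [h5, hc k h5]; ring
      · have h6 : k0 ∈ univ.filter fun k => lam k ≠ 0 := by
          simp only [mem_filter, mem_univ, true_and]
          intro h5
          rw [hc k0 h5] at hk0
          exact lt_irrefl _ hk0
        have h7 := hss h6
        simp only [mem_filter, mem_univ, true_and] at h7
        exact h7 (by rw [neg_mul, hk0']; ring)
    · simp only [add_smul, Finset.sum_add_distrib, mul_smul]
      rw [h2, ← Finset.smul_sum, hc0, smul_zero, add_zero]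
    · intro μ hμ0 hμ
      have e4 : ∑ k, (lam k + -t * c k) * h k = ∑ k, lam k * h k := by
        simp only [add_mul, Finset.sum_add_distrib, mul_assoc]
        rw [← Finset.mul_sum, e3, mul_zero, add_zero]
      rw [e4]
      exact h3 μ hμ0 hμ
  intro c hc hc0 k
  have e1 := key c hc hc0 k
  have e2 := key (fun k => -c k) (fun k hk => by rw [hc k hk, neg_zero]) (by simp [hc0]) k
  push Not at e1 e2
  linarith

end LP

theorem stmt_LP : Stmt_LP := by
  classical
  intro κ E _ _ _ _ a h x₀ hx hgen hψ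
  obtain ⟨lam, h1, h2, h3, h4⟩ := exists_max_indep a h x₀ hx hψ
  -- the basis
  let B : Type := {k : κ // lam k ≠ 0}
  have hli : LinearIndependent ℝ (fun k : B => a k.1) := by
    rw [Fintype.linearIndependent_iff]
    intro g hg k
    have h5 := h4 (fun j => if hj : lam j ≠ 0 then g ⟨j, hj⟩ else 0)
      (fun j hj => by simp [hj]) (by
        have e : ∑ j, (if hj : lam j ≠ 0 then g ⟨j, hj⟩ else 0) • a j
            = ∑ j ∈ univ.filter (fun j => lam j ≠ 0),
              (if hj : lam j ≠ 0 then g ⟨j, hj⟩ else 0) • a j := by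
          rw [Finset.sum_filter]
          refine Finset.sum_congr rfl fun j _ => ?_
          by_cases hj : lam j ≠ 0
          · simp [hj]
          · simp [hj]
        rw [e, ← hg]
        rw [Finset.sum_subtype (univ.filter fun j => lam j ≠ 0) (p := fun j => lam j ≠ 0)
          (fun j => by simp)]
        refine Finset.sum_congr rfl fun j _ => ?_
        rw [dif_pos j.2]) k.1
    rw [dif_pos k.2] at h5
    exact h5
  have hx0 : x₀ ∈ Submodule.span ℝ (a '' {k | lam k ≠ 0}) := by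
    rw [← h2]
    refine Submodule.sum_mem _ fun k _ => ?_
    by_cases hk : lam k = 0
    · rw [hk, zero_smul]; exact Submodule.zero_mem _
    · exact Submodule.smul_mem _ _ (Submodule.subset_span ⟨k, hk, rfl⟩)
  have hsp : (⊤ : Submodule ℝ E) ≤ Submodule.span ℝ (Set.range fun k : B => a k.1) := by
    rw [← hgen _ hx0]
    refine Submodule.span_mono ?_
    rintro _ ⟨k, hk, rfl⟩
    exact ⟨⟨k, hk⟩, rfl⟩
  let b : Module.Basis B ℝ E := Module.Basis.mk hli hsp
  have hb : ∀ k : B, b k = a k.1 := fun k => by simp [b]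
  let ψ : Module.Dual ℝ E := b.constr ℝ (fun k : B => h k.1)
  have hψ1 : ∀ k, lam k ≠ 0 → ψ (a k) = h k := by
    intro k hk
    have := b.constr_basis ℝ (fun k : B => h k.1) ⟨k, hk⟩
    rw [hb] at this
    exact this
  have hψ2 : ∀ k, h k ≤ ψ (a k) := by
    intro k
    by_cases hk : lam k = 0
    · let μ : κ → ℝ := fun j => if hj : lam j ≠ 0 then b.repr (a k) ⟨j, hj⟩ else 0
      have hμ : ∑ j, μ j • a j = a k := by
        have e : ∑ j, μ j • a j = ∑ j ∈ univ.filter (fun j => lam j ≠ 0), μ j • a j := by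
          rw [Finset.sum_filter]
          refine Finset.sum_congr rfl fun j _ => ?_
          by_cases hj : lam j ≠ 0
          · simp [hj]
          · simp [μ, hj]
        rw [e, Finset.sum_subtype (univ.filter fun j => lam j ≠ 0) (p := fun j => lam j ≠ 0)
          (fun j => by simp)]
        conv_rhs => rw [← b.sum_repr (a k)]
        refine Finset.sum_congr rfl fun j _ => ?_
        simp only [μ]
        rw [dif_pos j.2, hb]
      have hcs : ∀ f : κ → ℝ, ∑ j, ((if j = k then (1 : ℝ) else 0) - μ j) * f j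
          = f k - ∑ j, μ j * f j := by
        intro f
        simp [sub_mul, Finset.sum_sub_distrib]
      have e1 := opt_dir a h x₀ lam h1 h2 h3 (fun j => (if j = k then 1 else 0) - μ j)
        (fun j hj => by
          have : μ j = 0 := by simp [μ, hj]
          rw [this]; split_ifs <;> norm_num) (by
          simp only [sub_smul, Finset.sum_sub_distrib, ite_smul, one_smul, zero_smul,
            Finset.sum_ite_eq', Finset.mem_univ, if_true]
          rw [hμ, sub_self])
      rw [hcs] at e1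
      have e2 : ψ (a k) = ∑ j, μ j * h j := by
        rw [← hμ, map_sum]
        refine Finset.sum_congr rfl fun j _ => ?_
        rw [map_smul, smul_eq_mul]
        by_cases hj : lam j = 0
        · simp [μ, hj]
        · rw [hψ1 j hj]
      linarith
    · exact (hψ1 k hk).ge
  have hpair : ∀ (φ : Module.Dual ℝ E) (μ : κ → ℝ), x₀ = ∑ k, μ k • a k →
      φ x₀ = ∑ k, μ k * φ (a k) := by
    intro φ μ hμ
    rw [hμ, map_sum]
    exact Finset.sum_congr rfl fun j _ => by rw [map_smul, smul_eq_mul]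
  refine ⟨ψ, ⟨hψ2, lam, h1, fun k hk => hψ1 k hk, h2.symm⟩, ?_⟩
  rintro ψ' ⟨hψ'1, μ, hμ0, hμ1, hμ2⟩
  -- ψ' x₀ = ∑ μ h ≤ ∑ lam h = ψ x₀ ≤ ψ' x₀
  have e1 : ψ' x₀ = ∑ k, μ k * h k := by
    rw [hpair ψ' μ hμ2]
    refine Finset.sum_congr rfl fun k _ => ?_
    by_cases hk : μ k = 0
    · simp [hk]
    · rw [hμ1 k hk]
  have e2 : ∑ k, μ k * h k ≤ ∑ k, lam k * h k := h3 μ hμ0 hμ2.symm
  have e3 : ψ' x₀ = ∑ k, lam k * ψ' (a k) := hpair ψ' lam h2.symm
  have e4 : ∑ k, lam k * (ψ' (a k) - h k) ≤ 0 := by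
    simp only [mul_sub, Finset.sum_sub_distrib]
    linarith
  have e5 : ∀ k, lam k * (ψ' (a k) - h k) = 0 := by
    intro k
    have h6 : ∀ j, 0 ≤ lam j * (ψ' (a j) - h j) := fun j =>
      mul_nonneg (h1 j) (sub_nonneg.2 (hψ'1 j))
    have h7 := Finset.single_le_sum (f := fun j => lam j * (ψ' (a j) - h j))
      (fun j _ => h6 j) (mem_univ k)
    exact le_antisymm (h7.trans e4) (h6 k)
  refine b.ext fun k => ?_
  rw [hb, hψ1 k.1 k.2]
  have h8 := e5 k.1
  rcases mul_eq_zero.1 h8 with h9 | h9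
  · exact absurd h9 k.2
  · linarith

end Pool.Agent.TP.h12
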