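import Mathlib
import Pool.Agent.Work.MP_c51d14_co.Basic2

/-!
# Block P2
-/

namespace Pool.Agent.TP.h12

open Finset

open scoped RealInnerProductSpace

/-- a functional vanishing at `(w₀, 0)` factors through the second projection on `L` -/
lemma factor {W E : Type} [AddCommGroup E] [Module ℝ E] [FiniteDimensional ℝ E]
    [AddCommGroup W] [Module ℝ W] [FiniteDimensional ℝ W] (L : Submodule ℝ (W × E))
    (hdim : Module.finrank ℝ L = Module.finrank ℝ E + 1)
    (hsurj : L.map (LinearMap.snd ℝ W E) = ⊤) {w₀ : W} (hw : w₀ ≠ 0)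
    (hwL : ((w₀, 0) : W × E) ∈ L) (f : Module.Dual ℝ (W × E)) (hf : f (w₀, 0) = 0) :
    ∃ ψ : Module.Dual ℝ E, ∀ x ∈ L, f x = ψ x.2 := by
  let p : L →ₗ[ℝ] E := (LinearMap.snd ℝ W E) ∘ₗ L.subtype
  have hp : LinearMap.range p = ⊤ := by
    rw [LinearMap.range_comp, Submodule.range_subtype, hsurj]
  have hk : Module.finrank ℝ (LinearMap.ker p) = 1 := by
    have := LinearMap.finrank_range_add_finrank_ker p
    rw [hp, finrank_top, hdim] at this
    omega
  let e : LinearMap.ker p := ⟨⟨(w₀, 0), hwL⟩, by simp [p]⟩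
  have he : e ≠ 0 := by
    intro h
    apply hw
    have : ((e : L) : W × E) = 0 := by rw [h]; rfl
    exact congrArg Prod.fst this
  have hall := (finrank_eq_one_iff_of_nonzero' e he).1 hk
  obtain ⟨s, hs⟩ := p.exists_rightInverse_of_surjective hp
  refine ⟨f ∘ₗ L.subtype ∘ₗ s, fun x hx => ?_⟩
  have h1 : p (⟨x, hx⟩ - s x.2) = 0 := by
    rw [map_sub]
    have h2 : p (s x.2) = x.2 := LinearMap.congr_fun hs x.2
    rw [h2]
    simp [p]
  obtain ⟨c, hc⟩ := hall ⟨⟨x, hx⟩ - s x.2, h1⟩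
  have h3 : x - (s x.2 : W × E) = c • ((w₀, 0) : W × E) := by
    have := congrArg (fun y : LinearMap.ker p => ((y : L) : W × E)) hc
    simpa [e] using this.symm
  have h4 : f (x - (s x.2 : W × E)) = 0 := by
    rw [h3, map_smul, hf, smul_zero]
  rw [map_sub, sub_eq_zero] at h4
  exact h4

theorem stmt_P2 (hLP : Stmt_LP) : Stmt_P2 := by
  classical
  intro ι E W _ _ _ _ _ _ _ r D Z' hZ' hr
  obtain ⟨w0, hw0, hw0L⟩ := D.exists_w0 (Z := Z') (by omega)
  have hsurj : (Submodule.span ℝ (D.c '' (Z' : Set (Fin r × ι)))).map (LinearMap.snd ℝ W E)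
      = ⊤ := by
    rw [D.map_snd_span_c, D.span_of_pos (D.mem_N.1 hZ').2]
  have hfac := factor (Submodule.span ℝ (D.c '' (Z' : Set (Fin r × ι)))) hr hsurj hw0 hw0L
  have hcL : ∀ k ∈ Z', D.c k ∈ Submodule.span ℝ (D.c '' (Z' : Set (Fin r × ι))) :=
    fun k hk => Submodule.subset_span ⟨k, hk, rfl⟩
  -- a functional with value one at `(w0, 0)`
  obtain ⟨g0, hg0⟩ : ∃ g0 : Module.Dual ℝ (W × E), g0 (w0, 0) = 1 := by
    refine ⟨Sark.fn ((‖w0‖ ^ 2)⁻¹ • w0) 0, ?_⟩
    rw [Sark.fn_apply, real_inner_smul_left, real_inner_self_eq_norm_sq, LinearMap.zero_apply,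
      add_zero]
    exact inv_mul_cancel₀ (by positivity)
  have lp := fun ε : ℝ => D.lp_on hLP (D.mem_N.1 hZ').2 (fun k => -(ε * g0 (D.c k)))
  choose ψ hψ using fun ε => (lp ε).exists
  let g : ℝ → Module.Dual ℝ (W × E) := fun ε => ε • g0 + (ψ ε) ∘ₗ (LinearMap.snd ℝ W E)
  have gc : ∀ ε k, g ε (D.c k) = ε * g0 (D.c k) + ψ ε (D.v k.2) := fun ε k => rfl
  have gw : ∀ ε, g ε (w0, 0) = ε := by
    intro ε
    simp [g, hg0]
  have gnn : ∀ ε, ∀ k ∈ Z', 0 ≤ g ε (D.c k) := by
    intro ε k hk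
    rw [gc]
    linarith [(hψ ε).1 k hk]
  let Zf : ℝ → Finset (Fin r × ι) := fun ε => Z'.filter fun k => g ε (D.c k) = 0
  have hZf : ∀ ε k, k ∈ Zf ε ↔ k ∈ Z' ∧ g ε (D.c k) = 0 := by
    intro ε k
    simp [Zf]
  have hsub : ∀ ε, Zf ε ⊆ Z' := fun ε => filter_subset _ _
  have hface : ∀ ε, IsFace D.c (Zf ε) := fun ε => (D.mem_N.1 hZ').1.rel (g ε) (gnn ε)
  have hN : ∀ ε, Zf ε ∈ D.N := by
    intro ε
    refine D.mem_N.2 ⟨hface ε, (hψ ε).2.mono ?_⟩
    intro k hk
    rw [mem_coe, hZf, gc]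
    exact ⟨hk.1, by linarith [hk.2]⟩
  have hne : ∀ ε, ε ≠ 0 → Zf ε ≠ Z' := by
    intro ε hε h
    apply hε
    rw [← gw ε]
    refine dual_zero_of_span (v := D.c) (S := (Z' : Set (Fin r × ι))) (fun k hk => ?_) hw0L
    rw [mem_coe, ← h, hZf] at hk
    exact hk.2
  have hrk : ∀ ε, ε ≠ 0 → rk D.c (Zf ε : Set (Fin r × ι)) = Module.finrank ℝ E := by
    intro ε hε
    have h1 := D.finrank_le_rk_c (hN ε)
    have h2 := (hface ε).rk_lt_of_ssubset (Finset.ssubset_iff_subset_ne.2 ⟨hsub ε, hne ε hε⟩)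
    omega
  -- the two faces are different
  have hdiff : Zf 1 ≠ Zf (-1) := by
    intro h
    have h1 : ψ 1 + ψ (-1) = 0 := by
      refine Sark.psi_eq_zero_of_span (a := fun k : Fin r × ι => D.v k.2)
        (S := (Zf 1 : Set (Fin r × ι))) (D.span_of_pos (D.mem_N.1 (hN 1)).2) ?_
      intro k hk
      have h2 := ((hZf 1 k).1 hk).2
      have h3 := ((hZf (-1) k).1 (h ▸ hk)).2
      rw [gc] at h2 h3
      rw [LinearMap.add_apply]
      linarith
    apply hne 1 one_ne_zero
    refine Finset.Subset.antisymm (hsub 1) fun k hk => ?_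
    rw [hZf]
    refine ⟨hk, ?_⟩
    have h2 := gnn 1 k hk
    have h3 := gnn (-1) k hk
    have h4 : ψ 1 (D.v k.2) + ψ (-1) (D.v k.2) = 0 := by
      rw [← LinearMap.add_apply, h1, LinearMap.zero_apply]
    rw [gc] at h2 h3 ⊢
    linarith
  -- there are no others
  have hset : (D.N.filter fun Z => Z ⊆ Z' ∧ rk D.c (Z : Set (Fin r × ι)) = Module.finrank ℝ E)
      = {Zf 1, Zf (-1)} := by
    ext Z
    rw [mem_filter, mem_insert, mem_singleton]
    constructor
    · rintro ⟨hZN, hZZ', hZr⟩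
      obtain ⟨f, hf0, hf1⟩ := (D.mem_N.1 hZN).1
      have hfw : f (w0, 0) ≠ 0 := by
        intro h
        obtain ⟨φ, hφ⟩ := hfac f h
        have h1 : φ = 0 := by
          refine Sark.psi_eq_zero_of_span (a := fun k : Fin r × ι => D.v k.2)
            (S := (Z : Set (Fin r × ι))) (D.span_of_pos (D.mem_N.1 hZN).2) ?_
          intro k hk
          have h2 := hφ (D.c k) (hcL k (hZZ' hk))
          rw [(hf1 k).1 hk] at h2
          exact h2.symm
        have h2 : Z' ⊆ Z := by
          intro k hk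
          rw [hf1, hφ _ (hcL k hk), h1, LinearMap.zero_apply]
        have h3 := rk_mono D.c (Finset.coe_subset.2 h2)
        omega
      have key : ∀ ε t : ℝ, 0 < t → f (w0, 0) = ε * t → Z = Zf ε := by
        intro ε t ht hft
        obtain ⟨φ, hφ⟩ := hfac (t⁻¹ • f - ε • g0) (by
          rw [LinearMap.sub_apply, LinearMap.smul_apply, LinearMap.smul_apply, hg0, hft]
          simp only [smul_eq_mul]
          field_simp
          ring)
        have hφc : ∀ k ∈ Z', t⁻¹ * f (D.c k) = ε * g0 (D.c k) + φ (D.v k.2) := by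
          intro k hk
          have h1 := hφ (D.c k) (hcL k hk)
          rw [LinearMap.sub_apply, LinearMap.smul_apply, LinearMap.smul_apply] at h1
          simp only [smul_eq_mul] at h1
          have h2 : φ (D.c k).2 = φ (D.v k.2) := rfl
          rw [h2] at h1
          linarith
        have hti : 0 < t⁻¹ := inv_pos.2 ht
        have h1 : φ = ψ ε := by
          refine (lp ε).unique ⟨fun k hk => ?_, ?_⟩ (hψ ε)
          · have := hφc k hk
            have h3 := mul_nonneg hti.le (hf0 k)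
            linarith
          · refine (D.mem_N.1 hZN).2.mono fun k hk => ⟨hZZ' hk, ?_⟩
            have := hφc k (hZZ' hk)
            rw [(hf1 k).1 hk, mul_zero] at this
            linarith
        ext k
        rw [hZf]
        constructor
        · intro hk
          refine ⟨hZZ' hk, ?_⟩
          rw [gc, ← h1, ← hφc k (hZZ' hk), (hf1 k).1 hk, mul_zero]
        · rintro ⟨hk, hk2⟩
          rw [gc, ← h1, ← hφc k hk] at hk2
          rcases mul_eq_zero.1 hk2 with h3 | h3
          · exact absurd h3 hti.ne'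
          · exact (hf1 k).2 h3
      rcases lt_or_gt_of_ne hfw with h | h
      · exact Or.inr (key (-1) (-f (w0, 0)) (by linarith) (by ring))
      · exact Or.inl (key 1 (f (w0, 0)) h (by ring))
    · rintro (rfl | rfl)
      · exact ⟨hN 1, hsub 1, hrk 1 one_ne_zero⟩
      · exact ⟨hN (-1), hsub (-1), hrk (-1) (by norm_num)⟩
  rw [hset, card_pair hdiff]
  exact even_two

end Pool.Agent.TP.h12
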