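import Mathlib
import Pool.Agent.Work.MP_c51d14_co.Interface

/-!
# Block TRI: triangulation of a chain
-/

namespace Pool.Agent.TP.h12

open Finset

section abstr

variable {X L : Type} [Fintype L]

open scoped Classical in
/-- boundary of a chain of simplices -/
noncomputable def bdS (c : Finset L → ZMod 2) (R : Finset L) : ZMod 2 :=
  ∑ q ∈ univ.filter fun q => q ∉ R, c (insert q R)

open scoped Classical in
/-- cone with apex `p` -/
noncomputable def cone (p : L) (c : Finset L → ZMod 2) (R : Finset L) : ZMod 2 :=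
  if p ∈ R then c (R.erase p) else 0

open scoped Classical in
lemma bdS_cone (p : L) (c : Finset L → ZMod 2) (R : Finset L) :
    bdS (cone p c) R = c R + cone p (bdS c) R := by
  unfold bdS cone
  beta_reduce
  by_cases hp : p ∈ R
  · rw [if_pos hp]
    have h1 : (univ.filter fun q => q ∉ R.erase p) = insert p (univ.filter fun q => q ∉ R) := by
      ext q
      simp only [mem_filter, mem_univ, true_and, mem_erase, mem_insert]
      by_cases hq : q = p
      · simp [hq]
      · simp [hq]
    rw [h1, Finset.sum_insert (by simp [hp]), Finset.insert_erase hp, ← add_assoc,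
      CharTwo.add_self_eq_zero, zero_add]
    refine Finset.sum_congr rfl fun q hq => ?_
    simp only [mem_filter, mem_univ, true_and] at hq
    rw [if_pos (mem_insert_of_mem hp)]
    congr 1
    rw [Finset.erase_insert_of_ne]
    rintro rfl
    exact hq hp
  · rw [if_neg hp, add_zero, Finset.sum_eq_single p]
    · rw [if_pos (mem_insert_self _ _), Finset.erase_insert hp]
    · intro q hq hqp
      rw [if_neg]
      simp only [mem_insert, not_or]
      exact ⟨fun h => hqp h.symm, hp⟩
    · intro h
      exact absurd (by simp [hp]) h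

open scoped Classical in
lemma sum_simp_d (c : Finset L → ZMod 2) (R : Finset L) :
    ∑ S, c S * (Inc.simp L).d S R = bdS c R := by
  have h1 : ∑ S, c S * (Inc.simp L).d S R =
      ∑ S ∈ univ.filter (fun S : Finset L => R ⊆ S ∧ R.card + 1 = S.card), c S := by
    rw [Finset.sum_filter]
    refine Finset.sum_congr rfl fun S _ => ?_
    simp only [Inc.simp]
    by_cases h : R ⊆ S ∧ R.card + 1 = S.card
    · rw [if_pos h, if_pos h, mul_one]
    · rw [if_neg h, if_neg h, mul_zero]
  rw [h1]
  unfold bdS
  symm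
  refine Finset.sum_bij (fun q _ => insert q R) ?_ ?_ ?_ ?_
  · intro q hq
    simp only [mem_filter, mem_univ, true_and] at hq ⊢
    exact ⟨subset_insert _ _, by rw [card_insert_of_notMem hq]⟩
  · intro q1 hq1 q2 hq2 h
    simp only [mem_filter, mem_univ, true_and] at hq1 hq2
    have h3 : q1 ∈ insert q2 R := h ▸ mem_insert_self _ _
    rcases mem_insert.1 h3 with h4 | h4
    · exact h4
    · exact absurd h4 hq1
  · intro S hS
    simp only [mem_filter, mem_univ, true_and] at hS
    obtain ⟨h2, h3⟩ := hS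
    have h4 : (S \ R).card = 1 := by
      rw [card_sdiff_of_subset h2]; omega
    obtain ⟨q, hq⟩ := card_eq_one.1 h4
    have hq1 : q ∈ S \ R := by rw [hq]; exact mem_singleton_self _
    rw [mem_sdiff] at hq1
    refine ⟨q, by simp [hq1.2], ?_⟩
    refine Finset.eq_of_subset_of_card_le (insert_subset hq1.1 h2) ?_
    rw [card_insert_of_notMem hq1.2, h3]
  · intro q _
    rfl

lemma bdS_sum {J : Type} (u : Finset J) (e : J → ZMod 2) (c : J → Finset L → ZMod 2)
    (R : Finset L) :
    bdS (fun S => ∑ j ∈ u, e j * c j S) R = ∑ j ∈ u, e j * bdS (c j) R := by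
  unfold bdS
  rw [Finset.sum_comm]
  refine Finset.sum_congr rfl fun j _ => ?_
  rw [Finset.mul_sum]

open scoped Classical in
/-- the triangulation of a cell (`n` = size of the cell) -/
noncomputable def tri (A : Inc X) (s : Finset X) (p : X → L) : ℕ → X → Finset L → ZMod 2
  | 0, _ => fun R => if R = ∅ then 1 else 0
  | n + 1, x => cone (p x) (fun R => ∑ y ∈ s, A.d x y * tri A s p n y R)

variable (A : Inc X) (s : Finset X) (p : X → L)

/-- the triangulation of a cell -/
noncomputable def tt (x : X) : Finset L → ZMod 2 := tri A s p (A.gr x) x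

omit [Fintype L] in
lemma tt_succ (x : X) (h : 0 < A.gr x) :
    tt A s p x = cone (p x) (fun R => ∑ y ∈ s, A.d x y * tt A s p y R) := by
  obtain ⟨n, hn⟩ : ∃ n, A.gr x = n + 1 := ⟨A.gr x - 1, by omega⟩
  have h1 : tt A s p x = tri A s p (n + 1) x := by rw [tt, hn]
  rw [h1]
  show cone (p x) (fun R => ∑ y ∈ s, A.d x y * tri A s p n y R) = _
  congr 1
  funext R
  refine Finset.sum_congr rfl fun y _ => ?_
  by_cases hd : A.d x y = 0
  · rw [hd, zero_mul, zero_mul]
  · have := A.gr_d x y hd
    have h2 : A.gr y = n := by omega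
    rw [tt, h2]

omit [Fintype L] in
open scoped Classical in
lemma tt_zero (x : X) (h : A.gr x = 0) :
    tt A s p x = fun R => if R = ∅ then 1 else 0 := by
  rw [tt, h]
  rfl

lemma bdS_tt (hcx : A.IsCx s) : ∀ n, ∀ x ∈ s, A.gr x = n → ∀ R,
    bdS (tt A s p x) R = ∑ y ∈ s, A.d x y * tt A s p y R := by
  classical
  intro n
  induction n with
  | zero =>
    intro x hx hn R
    rw [tt_zero A s p x hn]
    have h1 : bdS (fun R : Finset L => if R = ∅ then (1 : ZMod 2) else 0) R = 0 := by
      unfold bdS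
      refine Finset.sum_eq_zero fun q _ => ?_
      beta_reduce
      rw [if_neg]
      exact (insert_nonempty _ _).ne_empty
    have h2 : ∑ y ∈ s, A.d x y * tt A s p y R = 0 := by
      refine Finset.sum_eq_zero fun y _ => ?_
      by_cases hd : A.d x y = 0
      · rw [hd, zero_mul]
      · have := A.gr_d x y hd
        omega
    rw [h2]
    convert h1
  | succ n ih =>
    intro x hx hn R
    rw [tt_succ A s p x (by omega), bdS_cone]
    have h1 : bdS (fun R => ∑ y ∈ s, A.d x y * tt A s p y R) = fun _ => 0 := by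
      funext R'
      rw [bdS_sum]
      have h2 : ∀ y ∈ s, A.d x y * bdS (tt A s p y) R' =
          ∑ z ∈ s, A.d x y * A.d y z * tt A s p z R' := by
        intro y hy
        by_cases hd : A.d x y = 0
        · simp [hd]
        · have := A.gr_d x y hd
          rw [ih y hy (by omega) R', Finset.mul_sum]
          exact Finset.sum_congr rfl fun z _ => by ring
      rw [Finset.sum_congr rfl h2, Finset.sum_comm]
      refine Finset.sum_eq_zero fun z hz => ?_
      rw [← Finset.sum_mul, hcx x hx z hz, zero_mul]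
    rw [h1]
    have h3 : cone (p x) (fun _ : Finset L => (0 : ZMod 2)) R = 0 := by
      unfold cone; split_ifs <;> rfl
    rw [h3, add_zero]

omit [Fintype L] in
lemma tt_supp (supp : X → Set L) (hmono : ∀ x ∈ s, ∀ y ∈ s, A.d x y ≠ 0 → supp y ⊆ supp x)
    (hp : ∀ x ∈ s, 0 < A.gr x → p x ∈ supp x) : ∀ n, ∀ x ∈ s, A.gr x = n → ∀ S : Finset L,
    tt A s p x S ≠ 0 → S.card = A.gr x ∧ (S : Set L) ⊆ supp x := by
  classical
  intro n
  induction n with
  | zero =>
    intro x hx hn S hS
    rw [tt_zero A s p x hn] at hS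
    by_cases h : S = ∅
    · subst h
      simp [hn]
    · exact absurd (if_neg h) hS
  | succ n ih =>
    intro x hx hn S hS
    rw [tt_succ A s p x (by omega)] at hS
    unfold cone at hS
    by_cases hpS : p x ∈ S
    · rw [if_pos hpS] at hS
      obtain ⟨y, hy, hy2⟩ := Finset.exists_ne_zero_of_sum_ne_zero hS
      have hd : A.d x y ≠ 0 := left_ne_zero_of_mul hy2
      have ht : tt A s p y (S.erase (p x)) ≠ 0 := right_ne_zero_of_mul hy2
      have hg := A.gr_d x y hd
      obtain ⟨h1, h2⟩ := ih y hy (by omega) _ ht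
      refine ⟨?_, ?_⟩
      · rw [← Finset.card_erase_add_one hpS, h1, hg]
      · intro l hl
        by_cases hlp : l = p x
        · rw [hlp]; exact hp x hx (by omega)
        · exact hmono x hx y hy hd (h2 (by
            rw [mem_coe, mem_erase]
            exact ⟨hlp, hl⟩))
    · rw [if_neg hpS] at hS
      exact absurd rfl hS

end abstr

section sT

variable {ι E W : Type} [Fintype ι] [AddCommGroup E] [Module ℝ E] [FiniteDimensional ℝ E]
  [NormedAddCommGroup W] [InnerProductSpace ℝ W] [FiniteDimensional ℝ W] {r : ℕ}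
  (D : Sark ι E W r)

omit [Fintype ι] in
lemma rk_empty' (v : ι → E) : rk v ((∅ : Finset ι) : Set ι) = 0 := by
  unfold rk
  simp

lemma isFace_empty : IsFace D.v ∅ := by
  obtain ⟨ψ, hψ⟩ := D.pointed
  exact ⟨ψ, fun i => (hψ i).le, fun i => by simp [(hψ i).ne']⟩

lemma mem_sT_empty {z : Finset (Finset (Fin r × ι))} (hz : z ∈ D.CH) :
    (z, fun _ : Fin r => (∅ : Finset ι)) ∈ D.sT := by
  classical
  simp only [Sark.sT, mem_filter, mem_univ, true_and, Tup]
  refine ⟨hz, ⟨fun i => ⟨isFace_empty D, by simp, by simp⟩, fun i j _ => by simp⟩, by simp⟩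

lemma ch_erase {z z' : Finset (Finset (Fin r × ι))} (hz : z ∈ D.CH) (h : z' ⊆ z) :
    z' ∈ D.CH := by
  classical
  simp only [Sark.CH, mem_filter, mem_univ, true_and] at hz ⊢
  exact ⟨fun Z hZ => hz.1 Z (h hZ), fun Z hZ Z' hZ' => hz.2 Z (h hZ) Z' (h hZ')⟩

lemma gr_eq (x : Finset (Finset (Fin r × ι)) × (Fin r → Finset ι)) :
    D.TInc.gr x = x.1.card + ∑ i, rk D.v (x.2 i : Set ι) := rfl

lemma gr_empty (z : Finset (Finset (Fin r × ι))) :
    D.TInc.gr (z, fun _ : Fin r => (∅ : Finset ι)) = z.card := by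
  rw [gr_eq]
  simp only [rk_empty', Finset.sum_const_zero, add_zero]

/-- the boundary of `(z, ∅)` -/
lemma d_empty {z : Finset (Finset (Fin r × ι))}
    {y : Finset (Finset (Fin r × ι)) × (Fin r → Finset ι)}
    (h : D.TInc.d (z, fun _ : Fin r => (∅ : Finset ι)) y ≠ 0) :
    (y.2 = fun _ : Fin r => (∅ : Finset ι)) ∧ y.1 ⊆ z ∧ y.1.card + 1 = z.card ∧
      D.TInc.d (z, fun _ : Fin r => (∅ : Finset ι)) y = 1 := by
  classical
  simp only [Sark.TInc, Inc.prod] at h ⊢
  have h2 : (if z = y.1 then ((fInc D.v).pi r).d (fun _ : Fin r => (∅ : Finset ι)) y.2 else 0)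
      = 0 := by
    split_ifs with h3
    · by_contra h4
      have := ((fInc D.v).pi r).gr_d _ _ h4
      have h5 : ((fInc D.v).pi r).gr (fun _ : Fin r => (∅ : Finset ι)) = 0 := by
        show ∑ i : Fin r, rk D.v ((∅ : Finset ι) : Set ι) = 0
        simp only [rk_empty', Finset.sum_const_zero]
      omega
    · rfl
  rw [h2, add_zero] at h ⊢
  by_cases h3 : (fun _ : Fin r => (∅ : Finset ι)) = y.2
  · rw [if_pos h3] at h ⊢
    refine ⟨h3.symm, ?_⟩
    simp only [Inc.simp] at h ⊢
    by_cases h4 : y.1 ⊆ z ∧ y.1.card + 1 = z.card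
    · exact ⟨h4.1, h4.2, if_pos h4⟩
    · exact absurd (if_neg h4) h
  · exact absurd (if_neg h3) h

lemma supp_mono (x y : Finset (Finset (Fin r × ι)) × (Fin r → Finset ι))
    (h : D.TInc.d x y ≠ 0) : D.supp y ⊆ D.supp x := by
  classical
  have key : y.1 ⊆ x.1 ∧ ∀ i, y.2 i ⊆ x.2 i := by
    simp only [Sark.TInc, Inc.prod] at h
    by_cases h1 : x.2 = y.2
    · by_cases h2 : x.1 = y.1
      · exact ⟨h2 ▸ Finset.Subset.refl _, fun i => h1 ▸ Finset.Subset.refl _⟩
      · rw [if_pos h1, if_neg h2, add_zero] at h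
        refine ⟨?_, fun i => h1 ▸ Finset.Subset.refl _⟩
        simp only [Inc.simp] at h
        by_contra h3
        exact h (if_neg fun h4 => h3 h4.1)
    · rw [if_neg h1, zero_add] at h
      by_cases h2 : x.1 = y.1
      · rw [if_pos h2] at h
        refine ⟨h2 ▸ Finset.Subset.refl _, ?_⟩
        simp only [Inc.pi] at h
        obtain ⟨i, -, hi⟩ := Finset.exists_ne_zero_of_sum_ne_zero h
        by_cases h3 : ∀ j, j ≠ i → x.2 j = y.2 j
        · rw [if_pos h3] at hi
          intro j
          by_cases hj : j = i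
          · subst hj
            simp only [fInc] at hi
            by_contra h5
            exact hi (if_neg fun h6 => h5 h6.1)
          · rw [h3 j hj]
        · exact absurd (if_neg h3) hi
      · exact absurd (if_neg h2) h
  rintro l (⟨Z, hZ, rfl⟩ | ⟨i, j, hj, rfl⟩)
  · exact Or.inl ⟨Z, key.1 hZ, rfl⟩
  · exact Or.inr ⟨i, j, key.2 i hj, rfl⟩

lemma supp_nonempty (x : Finset (Finset (Fin r × ι)) × (Fin r → Finset ι))
    (h : 0 < D.TInc.gr x) : (D.supp x).Nonempty := by
  rw [gr_eq] at h
  by_cases h1 : x.1.card = 0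
  · have h2 : 0 < ∑ i, rk D.v (x.2 i : Set ι) := by omega
    obtain ⟨i, -, hi⟩ := Finset.exists_ne_zero_of_sum_ne_zero h2.ne'
    have h3 : (x.2 i).Nonempty := by
      rw [Finset.nonempty_iff_ne_empty]
      intro h4
      rw [h4, rk_empty'] at hi
      exact hi rfl
    obtain ⟨j, hj⟩ := h3
    exact ⟨Sum.inr (i, j), Or.inr ⟨i, j, hj, rfl⟩⟩
  · obtain ⟨Z, hZ⟩ := Finset.card_pos.1 (Nat.pos_of_ne_zero h1)
    exact ⟨Sum.inl Z, Or.inl ⟨Z, hZ, rfl⟩⟩

end sT

open scoped Classical in
/-- the triangulation of `(z, ∅)` -/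
lemma tt_flag {ι E W : Type} [Fintype ι] [AddCommGroup E] [Module ℝ E] [FiniteDimensional ℝ E]
    [NormedAddCommGroup W] [InnerProductSpace ℝ W] [FiniteDimensional ℝ W] {r : ℕ}
    (D : Sark ι E W r)
    (p : Finset (Finset (Fin r × ι)) × (Fin r → Finset ι) → Finset (Fin r × ι) ⊕ (Fin r × ι))
    (hp : ∀ x, 0 < D.TInc.gr x → p x ∈ D.supp x) : ∀ n, ∀ z ∈ D.CH, z.card = n →
    ∀ R, tt D.TInc D.sT p (z, fun _ : Fin r => (∅ : Finset ι)) R =
      if R = z.image Sum.inl then 1 else 0 := by
  intro n
  induction n with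
  | zero =>
    intro z hz hn R
    rw [tt_zero _ _ _ _ (by rw [gr_empty, hn])]
    rw [Finset.card_eq_zero] at hn
    subst hn
    by_cases hR : R = ∅ <;> simp [hR]
  | succ n ih =>
    intro z hz hn R
    have hgr : 0 < D.TInc.gr (z, fun _ : Fin r => (∅ : Finset ι)) := by rw [gr_empty]; omega
    rw [tt_succ _ _ _ _ hgr]
    have hpx := hp _ hgr
    rcases hpx with ⟨Z0, hZ0, hZ0'⟩ | ⟨i, j, hj, -⟩
    swap
    · simp at hj
    simp only at hZ0
    rw [hZ0']
    unfold cone
    beta_reduce
    -- the sum has one nonzero term at most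
    by_cases hR : Sum.inl Z0 ∈ R
    · rw [if_pos hR]
      rw [Finset.sum_eq_single (z.erase Z0, fun _ : Fin r => (∅ : Finset ι))]
      · have hd : D.TInc.d (z, fun _ : Fin r => (∅ : Finset ι))
            (z.erase Z0, fun _ : Fin r => (∅ : Finset ι)) = 1 := by
          simp only [Sark.TInc, Inc.prod, if_true]
          rw [if_neg (fun h => by
            have := Finset.notMem_erase Z0 z
            rw [← h] at this
            exact this hZ0), add_zero]
          simp only [Inc.simp]
          rw [if_pos ⟨erase_subset _ _, card_erase_add_one hZ0⟩]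
        rw [hd, one_mul, ih (z.erase Z0) (ch_erase D hz (erase_subset _ _))
          (by rw [card_erase_of_mem hZ0, hn]; rfl)]
        have hiff : R.erase (Sum.inl Z0) = (z.erase Z0).image Sum.inl ↔ R = z.image Sum.inl := by
          constructor
          · intro h
            ext l
            by_cases hl : l = Sum.inl Z0
            · subst hl
              simp [hR, hZ0]
            · have h1 : l ∈ R.erase (Sum.inl Z0) ↔ l ∈ (z.erase Z0).image Sum.inl := by rw [h]
              rw [mem_erase, mem_image] at h1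
              rw [mem_image]
              constructor
              · intro h2
                obtain ⟨Z, hZ, hZl⟩ := h1.1 ⟨hl, h2⟩
                exact ⟨Z, mem_of_mem_erase hZ, hZl⟩
              · rintro ⟨Z, hZ, hZl⟩
                exact (h1.2 ⟨Z, mem_erase.2 ⟨fun h3 => hl (by rw [← hZl, h3]), hZ⟩, hZl⟩).2
          · rintro rfl
            ext l
            rw [mem_erase, mem_image, mem_image]
            constructor
            · rintro ⟨hl, Z, hZ, rfl⟩
              exact ⟨Z, mem_erase.2 ⟨fun h3 => hl (by rw [h3]), hZ⟩, rfl⟩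
            · rintro ⟨Z, hZ, rfl⟩
              exact ⟨fun h3 => ne_of_mem_erase hZ (Sum.inl_injective h3), Z,
                mem_of_mem_erase hZ, rfl⟩
        by_cases hRR : R = z.image Sum.inl
        · rw [if_pos hRR]
          refine if_pos (Finset.ext fun a => ?_)
          have h9 := Finset.ext_iff.1 (hiff.2 hRR) a
          rw [@mem_erase, @mem_image] at h9
          rw [@mem_erase, @mem_image]
          exact h9
        · rw [if_neg hRR]
          refine if_neg (fun h => hRR (hiff.1 (Finset.ext fun a => ?_)))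
          have h9 := Finset.ext_iff.1 h a
          rw [@mem_erase, @mem_image] at h9
          rw [@mem_erase, @mem_image]
          exact h9
      · intro y hy hne
        by_cases hd : D.TInc.d (z, fun _ : Fin r => (∅ : Finset ι)) y = 0
        · rw [hd, zero_mul]
        · obtain ⟨h1, h2, h3, -⟩ := d_empty D hd
          obtain ⟨y1, y2⟩ := y
          simp only at h1 h2 h3 hne
          subst h1
          rw [ih y1 (ch_erase D hz h2) (by omega), if_neg, mul_zero]
          intro h4
          apply hne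
          congr 1
          -- Z0 ∉ y1
          have h5 : Z0 ∉ y1 := by
            intro h6
            have h8 : (Sum.inl Z0 : Finset (Fin r × ι) ⊕ (Fin r × ι)) ∈ y1.image Sum.inl :=
              mem_image_of_mem _ h6
            rw [← h4, @mem_erase] at h8
            exact h8.1 rfl
          refine Finset.eq_of_subset_of_card_le (fun Z hZ => mem_erase.2
            ⟨fun h7 => h5 (h7 ▸ hZ), h2 hZ⟩) ?_
          rw [card_erase_of_mem hZ0]; omega
      · intro h
        exact absurd (mem_sT_empty D (ch_erase D hz (erase_subset _ _))) h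
    · rw [if_neg hR, if_neg]
      rintro rfl
      exact hR (mem_image_of_mem _ hZ0)

open scoped Classical in
theorem stmt_Tri (hTCx : Stmt_TCx) : Stmt_Tri := by
  intro ι E W _ _ _ _ _ _ _ r D b hb1 hb2
  have hcx := hTCx ι E W r D
  -- the choice of the vertices
  have hp : ∃ p : Finset (Finset (Fin r × ι)) × (Fin r → Finset ι) →
      Finset (Fin r × ι) ⊕ (Fin r × ι), ∀ x, 0 < D.TInc.gr x → p x ∈ D.supp x := by
    have h1 : ∀ x : Finset (Finset (Fin r × ι)) × (Fin r → Finset ι),
        ∃ l : Finset (Fin r × ι) ⊕ (Fin r × ι), 0 < D.TInc.gr x → l ∈ D.supp x := by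
      intro x
      by_cases hx : 0 < D.TInc.gr x
      · obtain ⟨l, hl⟩ := supp_nonempty D x hx
        exact ⟨l, fun _ => hl⟩
      · exact ⟨Sum.inl ∅, fun h => absurd h hx⟩
    choose p hp using h1
    exact ⟨p, hp⟩
  obtain ⟨p, hp⟩ := hp
  refine ⟨fun S => ∑ x ∈ D.sT, b x * tt D.TInc D.sT p x S, ?_, ?_⟩
  · intro S hS
    obtain ⟨x, hx, hx2⟩ := Finset.exists_ne_zero_of_sum_ne_zero hS
    have hbx : b x ≠ 0 := left_ne_zero_of_mul hx2
    have htx : tt D.TInc D.sT p x S ≠ 0 := right_ne_zero_of_mul hx2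
    obtain ⟨h1, h2⟩ := tt_supp D.TInc D.sT p D.supp (fun x _ y _ h => supp_mono D x y h)
      (fun x _ h => hp x h) _ x hx rfl S htx
    exact ⟨by rw [h1, hb1 x hx hbx], x, hx, h2⟩
  · intro R
    have e1 := sum_simp_d (fun S => ∑ x ∈ D.sT, b x * tt D.TInc D.sT p x S) R
    have e2 : ∑ S, (∑ x ∈ D.sT, b x * tt D.TInc D.sT p x S) *
        (Inc.simp (Finset (Fin r × ι) ⊕ (Fin r × ι))).d S R =
        ∑ y ∈ D.sT, D.T y * tt D.TInc D.sT p y R := by
      rw [e1, bdS_sum]
      have h1 : ∀ x ∈ D.sT, b x * bdS (tt D.TInc D.sT p x) R =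
          ∑ y ∈ D.sT, b x * D.TInc.d x y * tt D.TInc D.sT p y R := by
        intro x hx
        rw [bdS_tt D.TInc D.sT p hcx _ x hx rfl R, Finset.mul_sum]
        exact Finset.sum_congr rfl fun y _ => by ring
      rw [Finset.sum_congr rfl h1, Finset.sum_comm]
      refine Finset.sum_congr rfl fun y hy => ?_
      rw [← Finset.sum_mul, ← hb2 y hy]
      rfl
    rw [e2]
    have e3 : ∀ y ∈ D.sT, D.T y * tt D.TInc D.sT p y R =
        if (y.1.card = Module.finrank ℝ W ∧ (y.2 = fun _ => ∅) ∧ R = y.1.image Sum.inl)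
          then 1 else 0 := by
      rintro ⟨z, F⟩ hy
      have hz : z ∈ D.CH := by
        simp only [Sark.sT, mem_filter, mem_univ, true_and] at hy
        exact hy.1
      by_cases h1 : z.card = Module.finrank ℝ W ∧ (F = fun _ => ∅)
      · obtain ⟨h2, rfl⟩ := h1
        rw [tt_flag D p hp _ z hz rfl]
        have h3 : D.T (z, fun _ => ∅) = 1 := by
          simp [Sark.T, h2]
        rw [h3, one_mul]
        by_cases h4 : R = z.image Sum.inl
        · rw [if_pos h4, if_pos ⟨h2, rfl, h4⟩]
        · rw [if_neg h4, if_neg (fun h => h4 h.2.2)]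
      · rw [if_neg (fun h => h1 ⟨h.1, h.2.1⟩)]
        have h3 : D.T (z, F) = 0 := by
          simp only [Sark.T]
          rw [if_neg]
          rintro ⟨h4, h5⟩
          exact h1 ⟨h4, funext h5⟩
        rw [h3, zero_mul]
    rw [Finset.sum_congr rfl e3]
    by_cases h : ∃ z ∈ D.CH, z.card = Module.finrank ℝ W ∧ R = z.image Sum.inl
    · rw [if_pos h]
      obtain ⟨z, hz, hzc, hR⟩ := h
      rw [Finset.sum_eq_single (z, fun _ : Fin r => (∅ : Finset ι))]
      · rw [if_pos ⟨hzc, rfl, hR⟩]
      · rintro ⟨z', F⟩ _ hne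
        rw [if_neg]
        rintro ⟨h1, h2, h3⟩
        simp only at h1 h2 h3
        apply hne
        rw [h2]
        congr 1
        rw [h3] at hR
        exact Finset.image_injective Sum.inl_injective hR
      · intro h
        exact absurd (mem_sT_empty D hz) h
    · rw [if_neg h]
      refine Finset.sum_eq_zero ?_
      rintro ⟨z', F⟩ hy
      rw [if_neg]
      rintro ⟨h1, h2, h3⟩
      simp only at h1 h2 h3
      have hz : z' ∈ D.CH := by
        simp only [Sark.sT, mem_filter, mem_univ, true_and] at hy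
        exact hy.1
      exact h ⟨z', hz, h1, h3⟩

end Pool.Agent.TP.h12
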