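import Mathlib
import Pool.Agent.Work.MP_c51d14_co.Basic2

/-!
# Block TCX
-/

namespace Pool.Agent.TP.h12

open Finset

theorem stmt_TCx (hS : Stmt_CxSimp) (hT : Stmt_CxTup) (hP : Stmt_CxProd) (hC : Stmt_CxConv) :
    Stmt_TCx := by
  classical
  intro ι E W _ _ _ _ _ _ _ r D
  have h1 : (Inc.simp (Finset (Fin r × ι))).IsCx D.CH :=
    hS _ D.CH fun S hS T hTS => D.mem_CH_mono hS hTS
  have h2 : ((fInc D.v).pi r).IsCx (Tup D.v (fun _ : Fin r => univ) ∅) :=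
    hT ι E D.v r _ _
  have h3 := hP _ _ _ _ _ _ h1 h2
  refine hC _ _ _ _ h3 (fun x hx => ?_) ?_
  · rw [D.mem_sT] at hx
    exact mem_product.2 ⟨hx.1, hx.2.1⟩
  · intro x hx y hy z _ hxy _
    rw [mem_product] at hy
    rw [D.mem_sT] at hx ⊢
    refine ⟨hy.1, hy.2, ?_⟩
    have key : y.1 ⊆ x.1 ∧ ∀ i, y.2 i ⊆ x.2 i := by
      rcases prod_d_ne _ _ hxy with ⟨h4, h5⟩ | ⟨h4, h5⟩
      · refine ⟨?_, fun i => by rw [h4]⟩
        by_contra h6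
        exact h5 (if_neg fun h7 => h6 h7.1)
      · exact ⟨by rw [h4], fun i => pi_fInc_d_le h5 i⟩
    intro Z hZ i j hj
    exact hx.2.2 Z (key.1 hZ) i j (key.2 i hj)

end Pool.Agent.TP.h12
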